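import Pool.Agent.H20.Trip2

set_option autoImplicit false

open MvPolynomial

namespace Pool.Agent.Results.MP_0eda79_ag.Counter

/-- Zero-sum triples: the indices of the coordinates for the tree with three leaves. -/
abbrev Flow (G : Type) [AddCommGroup G] := {g : Fin 3 → G // ∑ i, g i = 0}

/-- The vanishing ideal of the image of the monomial map of the three-leaf claw tree. -/
noncomputable def modelIdeal (G : Type) [AddCommGroup G] : Ideal (MvPolynomial (Flow G) ℂ) :=
  vanishingIdeal ℂ (Set.range fun (a : Fin 3 → G → ℂ) (g : Flow G) => ∏ e, a e (g.1 e))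

/-- The ideal generated by the homogeneous elements of degree exactly `d`. -/
noncomputable def degPart {σ : Type} (I : Ideal (MvPolynomial σ ℂ)) (d : ℕ) :
    Ideal (MvPolynomial σ ℂ) :=
  Ideal.span {p | p ∈ I ∧ p.IsHomogeneous d}

/-- Saturation with respect to the irrelevant ideal. -/
noncomputable def saturation {σ : Type} (I : Ideal (MvPolynomial σ ℂ)) :
    Ideal (MvPolynomial σ ℂ) :=
  ⨆ k : ℕ, I.colon ((Ideal.span (Set.range X) ^ k : Ideal (MvPolynomial σ ℂ)) : Set _)

theorem result : ∃ (G : Type) (_ : AddCommGroup G) (_ : Fintype G),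
    saturation (degPart (modelIdeal G) (Fintype.card G)) ≠ modelIdeal G := by
  refine ⟨H20.Trip.G 13, inferInstance, inferInstance, fun h => ?_⟩
  obtain ⟨ev, h3, f, t, h4, h5, h6⟩ := H20.Trip.main3 (M := 13)
  have mem : ∀ p, p ∈ modelIdeal (H20.Trip.G 13) ↔ aeval (fun t : Flow (H20.Trip.G 13) => ∏ i,
      (X (i, t.1 i) : MvPolynomial (Fin 3 × H20.Trip.G 13) ℂ)) p = 0 := fun p => by
    have e : ∀ a : Fin 3 × H20.Trip.G 13 → ℂ, aeval a (aeval (fun t : Flow (H20.Trip.G 13) => ∏ i,
        (X (i, t.1 i) : MvPolynomial (Fin 3 × H20.Trip.G 13) ℂ)) p) =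
        aeval (fun g : Flow (H20.Trip.G 13) => ∏ e, a (e, g.1 e)) p := fun a => by
      rw [comp_aeval_apply]; simp
    refine ⟨fun hp => MvPolynomial.funext fun a => ?_, ?_⟩
    · rw [map_zero, ← coe_aeval_eq_eval]
      exact (e a).trans (hp _ ⟨fun i g => a (i, g), rfl⟩)
    · rintro hp _ ⟨a, rfl⟩
      rw [← e fun z => a z.1 z.2, hp, map_zero]
  have h1 : degPart (modelIdeal (H20.Trip.G 13)) (Fintype.card (H20.Trip.G 13)) ≤ RingHom.ker ev :=
    Ideal.span_le.2 fun p hp => h3 p ((mem p).1 hp.1) (hp.2.totalDegree_le.trans_lt (by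
      rw [H20.Trip.card_G]; norm_num))
  have h2 : saturation (degPart (modelIdeal (H20.Trip.G 13)) (Fintype.card (H20.Trip.G 13))) ≤
      RingHom.ker ev := iSup_le fun k p hp => by
    have := h1 (Submodule.mem_colon.1 hp _
      (Ideal.pow_mem_pow (Ideal.subset_span (Set.mem_range_self t)) k))
    simpa [h6] using this
  exact one_ne_zero (h5.symm.trans (h2 (h.symm ▸ (mem f).2 h4)))

end Pool.Agent.Results.MP_0eda79_ag.Counter
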